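import Pool.Agent.Y808.LB.StmM

/-!
# LB-PRIM

An unramified local algebra, essentially of finite type with trivial extension of residue fields,
is a localisation of a simple algebra (by the local structure of unramified algebras).
-/

set_option autoImplicit false

noncomputable section

namespace Pool.Agent.Y287.LB

open Polynomial IsLocalRing Pool.Agent.Y808.LB

theorem t_PRIM : S_PRIM := by
  intro B0 B _ _ _ _ _ _ hE hmax hres
  have hsurj : Function.Surjective (algebraMap (ResidueField B0) (ResidueField B)) := by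
    intro y
    obtain ⟨z, rfl⟩ := IsLocalRing.residue_surjective y
    obtain ⟨a, ha⟩ := hres z
    refine ⟨residue B0 a, ?_⟩
    have h1 : residue B (z - algebraMap B0 B a) = 0 := (residue_eq_zero_iff _).2 ha
    rw [map_sub, sub_eq_zero] at h1
    rw [h1]
    rfl
  have hsep : Algebra.IsSeparable (ResidueField B0) (ResidueField B) := by
    refine ⟨fun y => ?_⟩
    obtain ⟨y0, rfl⟩ := hsurj y
    exact isSeparable_algebraMap _
  have hun : Algebra.FormallyUnramified B0 B :=
    Algebra.FormallyUnramified.of_map_maximalIdeal hmax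
  let C := Algebra.EssFiniteType.subalgebra B0 B
  let Q : Ideal C := (maximalIdeal B).comap (algebraMap C B)
  have hQ : Q.IsPrime := Ideal.IsPrime.comap _
  have hloc : IsLocalization.AtPrime B Q := by
    have h := Algebra.EssFiniteType.isLocalization B0 B
    have heq : Algebra.EssFiniteType.submonoid B0 B = Q.primeCompl := by
      ext x
      change IsUnit (algebraMap C B x) ↔ ¬ (algebraMap C B x ∈ maximalIdeal B)
      rw [mem_maximalIdeal, mem_nonunits_iff, not_not]
    rw [heq] at h
    exact h
  let e : Localization.AtPrime Q ≃ₐ[C] B := IsLocalization.algEquiv Q.primeCompl _ _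
  have hun' : Algebra.IsUnramifiedAt B0 Q :=
    Algebra.FormallyUnramified.of_equiv (e.restrictScalars B0).symm
  obtain ⟨f, hf, P, φ, hφ⟩ :=
    Algebra.IsUnramifiedAt.exists_hasStandardEtaleSurjectionOn (R := B0) Q
  have hfu : IsUnit (algebraMap C B f) := by
    by_contra h
    exact hf ((mem_maximalIdeal _).2 (mem_nonunits_iff.2 h))
  let ψ0 : Localization.Away f →+* B := IsLocalization.Away.lift f hfu
  have hψ : ∀ c : C, ψ0 (algebraMap C _ c) = algebraMap C B c := fun c =>
    IsLocalization.Away.lift_eq f hfu c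
  let ψ : Localization.Away f →ₐ[B0] B := { ψ0 with
    commutes' := by
      intro r
      have h1 : algebraMap B0 (Localization.Away f) r
          = algebraMap C (Localization.Away f) (algebraMap B0 C r) :=
        IsScalarTower.algebraMap_apply B0 C _ r
      have h2 : algebraMap B0 B r = algebraMap C B (algebraMap B0 C r) :=
        IsScalarTower.algebraMap_apply B0 C _ r
      change ψ0 (algebraMap B0 (Localization.Away f) r) = algebraMap B0 B r
      rw [h1, h2]
      exact hψ _ }
  let χ : P.Ring →ₐ[B0] B := ψ.comp φ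
  have hmap : P.HasMap (χ P.X) := StandardEtalePair.HasMap.map P.hasMap_X χ
  let Pr : StandardEtalePresentation B0 P.Ring := ⟨P, P.X, P.hasMap_X, by
    rw [StandardEtalePair.lift_X_left]
    exact Function.bijective_id⟩
  have key : ∀ c : C, ∃ (p : B0[X]) (n : ℕ),
      (algebraMap C B c) * (aeval (χ P.X) P.g) ^ n = aeval (χ P.X) p := by
    intro c
    obtain ⟨y, hy⟩ := hφ (algebraMap C _ c)
    obtain ⟨p, n, hp⟩ := Pr.exists_mul_aeval_x_g_pow_eq_aeval_x y
    refine ⟨p, n, ?_⟩
    have h3 := congrArg χ hp
    have h4 : χ y = algebraMap C B c := by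
      change ψ (φ y) = _
      rw [hy]
      exact hψ c
    rw [map_mul, map_pow, h4] at h3
    have h5 : ∀ q : B0[X], χ (aeval Pr.x q) = aeval (χ P.X) q := fun q =>
      (Polynomial.aeval_algHom_apply χ P.X q).symm
    rw [h5, h5] at h3
    exact h3
  refine ⟨χ P.X, P.f, P.monic_f, hmap.1, hmap.isUnit_derivative_f, ?_⟩
  intro z
  obtain ⟨⟨c, s⟩, hcs⟩ := IsLocalization.surj Q.primeCompl z
  obtain ⟨p1, n1, h1⟩ := key c
  obtain ⟨p2, n2, h2⟩ := key (s : C)
  have hs : IsUnit (algebraMap C B (s : C)) := by
    by_contra h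
    exact s.2 ((mem_maximalIdeal _).2 (mem_nonunits_iff.2 h))
  refine ⟨P.g ^ n2 * p1, P.g ^ n1 * p2, ?_, ?_⟩
  · rw [map_mul, map_pow, ← h2]
    exact ((hmap.2.pow _).mul (hs.mul (hmap.2.pow _)))
  · rw [map_mul, map_pow, ← h2, map_mul, map_pow, ← h1]
    have h6 : z * algebraMap C B (s : C) = algebraMap C B c := hcs
    rw [← h6]
    ring

end Pool.Agent.Y287.LB

end
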