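import Pool.Agent.Y808.LB.StmM
import Pool.Agent.H379R3.Reg

/-!
# LB-SURJ

A surjection from a local ring whose maximal ideal has `d` generators onto a local ring of
dimension `d` is injective; the source is then a domain.
-/

set_option autoImplicit false

namespace Pool.Agent.Y287.LB

open Polynomial IsLocalRing Pool.Agent.Y808.LB

theorem t_SURJ : S_SURJ := by
  intro E B _ _ _ _ _ φ d a hφ hm hB
  have h1 : (maximalIdeal E).spanFinrank ≤ d := by
    rw [hm]
    refine (Submodule.spanFinrank_span_le_ncard_of_finite (Set.finite_range a)).trans ?_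
    have h2 := Set.ncard_le_ncard (Set.range_subset_iff.2 fun i => Set.mem_range_self i)
      (Set.finite_range a)
    rw [← Set.image_univ]
    refine (Set.ncard_image_le Set.finite_univ).trans ?_
    rw [Set.ncard_univ, Nat.card_eq_fintype_card, Fintype.card_fin]
  have h2 : (d : WithBot ℕ∞) ≤ ringKrullDim E := by
    rw [← hB]
    exact ringKrullDim_le_of_surjective φ hφ
  have h3 : IsRegularLocalRing E := by
    refine IsRegularLocalRing.of_spanFinrank_maximalIdeal_le _ (le_trans ?_ h2)
    exact_mod_cast h1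
  have h4 : IsDomain E := Pool.Agent.H379R3.isDomain E
  have h5 : ringKrullDim E ≤ d := by
    have := (isRegularLocalRing_iff E).1 h3
    rw [← this]
    exact_mod_cast h1
  refine ⟨?_, h4⟩
  rw [injective_iff_map_eq_zero]
  intro x hx
  by_contra hne
  have h6 : ringKrullDim B ≤ ringKrullDim (E ⧸ Ideal.span {x}) := by
    have hker : ∀ y ∈ Ideal.span {x}, φ y = 0 := by
      intro y hy
      obtain ⟨z, rfl⟩ := Ideal.mem_span_singleton'.1 hy
      rw [map_mul, hx, mul_zero]
    refine ringKrullDim_le_of_surjective (Ideal.Quotient.lift _ φ hker) ?_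
    intro y
    obtain ⟨z, rfl⟩ := hφ y
    exact ⟨Ideal.Quotient.mk _ z, Ideal.Quotient.lift_mk _ _ _⟩
  have h7 := ringKrullDim_quotient_succ_le_of_nonZeroDivisor (mem_nonZeroDivisors_of_ne_zero hne)
  have h8 : (d : WithBot ℕ∞) + 1 ≤ d := by
    calc (d : WithBot ℕ∞) + 1 ≤ ringKrullDim (E ⧸ Ideal.span {x}) + 1 := by
          rw [← hB]
          exact add_le_add_left h6 1
      _ ≤ ringKrullDim E := h7
      _ ≤ d := h5
  have h9 : ((d + 1 : ℕ) : WithBot ℕ∞) ≤ (d : ℕ) := by exact_mod_cast h8
  have h10 : d + 1 ≤ d := by exact_mod_cast h9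
  omega

end Pool.Agent.Y287.LB
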